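import Pool.Agent.Helper64.IG.Goals

/-! Packet HM (MP_d01c92_ag, project IG of helper64): morphisms are strictly monotone. -/

namespace Pool.Agent.Helper64.IG.PkHM

open Tr

theorem deco_eq_leaf {Y : Type*} {σ : Tr Unit} {φ : ℕ → Y} {k : ℕ} {y : Y}
    (h : leaf k y = σ.deco φ) : σ = leaf k () ∧ y = φ 0 := by
  cases σ with
  | leaf l u =>
    simp only [deco, leaf.injEq] at h
    exact ⟨by rw [h.1], h.2⟩
  | node l u a b => simp [deco] at h

theorem deco_eq_node {Y : Type*} {σ : Tr Unit} {φ : ℕ → Y} {k : ℕ} {y : Y} {c d : Tr Y}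
    (h : node k y c d = σ.deco φ) : ∃ a b : Tr Unit, σ = node k () a b ∧ y = φ 0 ∧
      c = a.deco (fun n => φ (1 + n)) ∧ d = b.deco (fun n => φ (1 + a.size + n)) := by
  cases σ with
  | leaf l u => simp [deco] at h
  | node l u a b =>
    simp only [deco, node.injEq] at h
    exact ⟨a, b, by rw [h.1], h.2.1, h.2.2.1, h.2.2.2⟩

theorem dn_deco {k : ℕ} {t f : Tr ℕ} (h : Dn k t f) : ∀ (τ : Tr Unit) (o : ℕ),
    t = τ.deco (fun n => o + n) → ∃ (τ' : Tr Unit) (o' : ℕ), f = τ'.deco (fun n => o' + n) ∧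
      o ≤ o' ∧ o' + τ'.size ≤ o + τ.size := by
  induction h with
  | here f hf => intro τ o ht; exact ⟨τ, o, ht, le_rfl, le_rfl⟩
  | left l x b hk _ ih =>
    intro τ o ht
    obtain ⟨a', b', rfl, _, ha, _⟩ := deco_eq_node ht
    obtain ⟨τ', o', hf, h1, h2⟩ := ih a' (o + 1) (by rw [ha]; simp only [Nat.add_assoc])
    refine ⟨τ', o', hf, by omega, ?_⟩
    simp only [size]
    omega
  | right l x a hk _ ih =>
    intro τ o ht
    obtain ⟨a', b', rfl, _, _, hb⟩ := deco_eq_node ht
    obtain ⟨τ', o', hf, h1, h2⟩ := ih b' (o + (1 + a'.size))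
      (by rw [hb]; simp only [Nat.add_assoc])
    refine ⟨τ', o', hf, by omega, ?_⟩
    simp only [size]
    omega

theorem step_deco {t f : Tr ℕ} (h : Step t f) (τ : Tr Unit) (o : ℕ)
    (ht : t = τ.deco (fun n => o + n)) : ∃ (τ' : Tr Unit) (o' : ℕ),
      f = τ'.deco (fun n => o' + n) ∧ o ≤ o' ∧ o' + τ'.size ≤ o + τ.size := by
  cases h with
  | left k x b hd =>
    obtain ⟨a', b', rfl, _, ha, _⟩ := deco_eq_node ht
    obtain ⟨τ', o', hf, h1, h2⟩ := dn_deco hd a' (o + 1)
      (by rw [ha]; simp only [Nat.add_assoc])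
    refine ⟨τ', o', hf, by omega, ?_⟩
    simp only [size]
    omega
  | right k x a hd =>
    obtain ⟨a', b', rfl, _, _, hb⟩ := deco_eq_node ht
    obtain ⟨τ', o', hf, h1, h2⟩ := dn_deco hd b' (o + (1 + a'.size))
      (by rw [hb]; simp only [Nat.add_assoc])
    refine ⟨τ', o', hf, by omega, ?_⟩
    simp only [size]
    omega

theorem main {s t : Tr ℕ} (h : Emb (fun a b : ℕ => a = b) s t) :
    ∀ (σ : Tr Unit) (φ : ℕ → ℕ) (τ : Tr Unit) (o : ℕ), s = σ.deco φ →
      t = τ.deco (fun n => o + n) →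
      (∀ a, a < σ.size → o ≤ φ a ∧ φ a < o + τ.size) ∧
      (∀ a b, a < b → b < σ.size → φ a < φ b) := by
  induction h with
  | leaf k x y hxy =>
    intro σ φ τ o hs ht
    obtain ⟨rfl, hx⟩ := deco_eq_leaf hs
    obtain ⟨rfl, hy⟩ := deco_eq_leaf ht
    simp only [size] at *
    refine ⟨fun a ha => ?_, fun a b hab hb => by omega⟩
    obtain rfl : a = 0 := by omega
    omega
  | node k x y a b c d hxy _ _ ih1 ih2 =>
    intro σ φ τ o hs ht
    obtain ⟨a', b', rfl, hx, ha, hb⟩ := deco_eq_node hs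
    obtain ⟨c', d', rfl, hy, hc, hd⟩ := deco_eq_node ht
    obtain ⟨p1, q1⟩ := ih1 a' (fun n => φ (1 + n)) c' (o + 1) ha
      (by rw [hc]; simp only [Nat.add_assoc])
    obtain ⟨p2, q2⟩ := ih2 b' (fun n => φ (1 + a'.size + n)) d' (o + (1 + c'.size)) hb
      (by rw [hd]; simp only [Nat.add_assoc])
    simp only [size] at *
    have h0 : φ 0 = o := by omega
    have key : ∀ n, n < 1 + a'.size + b'.size → n = 0 ∨ (∃ m, m < a'.size ∧ n = 1 + m) ∨
        ∃ m, m < b'.size ∧ n = 1 + a'.size + m := by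
      intro n hn
      rcases Nat.eq_zero_or_pos n with h | h
      · exact Or.inl h
      rcases lt_or_ge n (1 + a'.size) with h' | h'
      · exact Or.inr (Or.inl ⟨n - 1, by omega, by omega⟩)
      · exact Or.inr (Or.inr ⟨n - (1 + a'.size), by omega, by omega⟩)
    constructor
    · intro n hn
      rcases key n hn with rfl | ⟨m, hm, rfl⟩ | ⟨m, hm, rfl⟩
      · omega
      · have := p1 m hm
        omega
      · have := p2 m hm
        omega
    · intro n n' hnn hn'
      rcases key n (by omega) with rfl | ⟨m, hm, rfl⟩ | ⟨m, hm, rfl⟩ <;>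
      rcases key n' hn' with rfl | ⟨m', hm', rfl⟩ | ⟨m', hm', rfl⟩
      · omega
      · have := p1 m' hm'
        omega
      · have := p2 m' hm'
        omega
      · omega
      · exact q1 m m' (by omega) hm'
      · have := p1 m hm
        have := p2 m' hm'
        omega
      · omega
      · omega
      · exact q2 m m' (by omega) hm'
  | skip s t f hst _ ih =>
    intro σ φ τ o hs ht
    obtain ⟨τ', o', hf, h1, h2⟩ := step_deco hst τ o ht
    obtain ⟨p, q⟩ := ih σ φ τ' o' hs hf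
    exact ⟨fun a ha => by have := p a ha; omega, q⟩

theorem hm : G_HM := by
  intro σ τ φ hφ
  have hφ' : Emb (fun a b : ℕ => a = b) (σ.deco (ext φ)) (τ.deco id) := hφ
  obtain ⟨_, q⟩ := main hφ' σ (ext φ) τ 0 rfl (by congr 1; funext n; simp)
  intro a b hab
  have h := q a b hab b.2
  simp only [ext, dif_pos a.2, dif_pos b.2] at h
  exact h

end Pool.Agent.Helper64.IG.PkHM
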