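import Pool.Agent.Helper64.IG.Goals

/-! Packet SYM (MP_d01c92_ag, project IG of helper64): the connectivity function. -/

namespace Pool.Agent.Helper64.IG.PkSYM

universe u

variable {K : Type u} [Field K] {p : ℕ}

theorem rkS_submod (l : List (Fin p → K)) (X Y : Finset (Fin l.length)) :
    rkS l (X ∩ Y) + rkS l (X ∪ Y) ≤ rkS l X + rkS l Y := by
  unfold rkS
  have h1 : Submodule.span K (l.get '' ((X ∪ Y : Finset (Fin l.length)) : Set (Fin l.length)))
      = Submodule.span K (l.get '' (X : Set (Fin l.length))) ⊔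
        Submodule.span K (l.get '' (Y : Set (Fin l.length))) := by
    rw [Finset.coe_union, Set.image_union, Submodule.span_union]
  have h2 : Submodule.span K (l.get '' ((X ∩ Y : Finset (Fin l.length)) : Set (Fin l.length)))
      ≤ Submodule.span K (l.get '' (X : Set (Fin l.length))) ⊓
        Submodule.span K (l.get '' (Y : Set (Fin l.length))) := by
    rw [Finset.coe_inter]
    refine le_inf (Submodule.span_mono (Set.image_mono Set.inter_subset_left))
      (Submodule.span_mono (Set.image_mono Set.inter_subset_right))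
  have h3 := Submodule.finrank_sup_add_finrank_inf_eq
    (Submodule.span K (l.get '' (X : Set (Fin l.length))))
    (Submodule.span K (l.get '' (Y : Set (Fin l.length))))
  have h4 := Submodule.finrank_mono h2
  rw [h1]
  omega

theorem rkS_univ (l : List (Fin p → K)) : rkS l Finset.univ = rkl l := by
  unfold rkS rkl
  have : Set.range l.get = {v | v ∈ l} := by
    ext v
    exact List.mem_iff_get.symm
  rw [Finset.coe_univ, Set.image_univ, this]

theorem le_rkS (l : List (Fin p → K)) (h : rkl l = p) (X : Finset (Fin l.length)) :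
    p ≤ rkS l X + rkS l Xᶜ := by
  have h1 := rkS_submod l X Xᶜ
  rw [Finset.union_compl, rkS_univ, h] at h1
  omega

theorem sym : G_SYM.{u} := by
  intro K _ p l hl
  refine ⟨fun X => ?_, fun X Y => ?_⟩
  · unfold lamL
    rw [compl_compl, add_comm]
  · unfold lamL
    have h1 := rkS_submod l X Y
    have h2 := rkS_submod l Xᶜ Yᶜ
    have e1 : (X ∩ Y)ᶜ = Xᶜ ∪ Yᶜ := Finset.compl_inter X Y
    have e2 : (X ∪ Y)ᶜ = Xᶜ ∩ Yᶜ := Finset.compl_union X Y
    have a1 := le_rkS l hl (X ∩ Y)
    have a2 := le_rkS l hl (X ∪ Y)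
    have a3 := le_rkS l hl X
    have a4 := le_rkS l hl Y
    rw [e1] at a1
    rw [e2] at a2
    rw [e1, e2]
    omega

end Pool.Agent.Helper64.IG.PkSYM
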